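import Pool.Agent.X333.ONL.Space
import Pool.Agent.X333.ONL.Loc
set_option autoImplicit false

open MeasureTheory

namespace Pool.Agent.Results.MP_e081a1_an.OneLocalization

/-- Bounded geometry: for every radius the balls have a bounded number of points. -/
def BoundedGeometry (X : Type) [MetricSpace X] : Prop :=
  ∀ R : ℝ, 0 < R → ∃ N : ℕ, ∀ x : X, (Metric.ball x R).Finite ∧ (Metric.ball x R).ncard ≤ N

/-- Yu's property A for a discrete metric space. -/
def PropertyA (X : Type) [MetricSpace X] : Prop :=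
  ∀ R : ℝ, 0 < R → ∀ ε : ℝ, 0 < ε →
    ∃ S : ℝ, ∃ A : X → Set (X × ℕ),
      (∀ x, (A x).Finite) ∧ (∀ x, (x, 0) ∈ A x) ∧
      (∀ x, ∀ w ∈ A x, dist w.1 x ≤ S) ∧
      ∀ x y, dist x y < R →
        ((symmDiff (A x) (A y)).ncard : ℝ) < ε * ((A x ∩ A y).ncard : ℝ)

/-- `T` has a nonzero vector `ξ` with the property `P` and `c ‖T‖ ‖ξ‖ ≤ ‖T ξ‖`. -/
def Attains {F : Type} [NormedAddCommGroup F] [NormedSpace ℝ F] (T : F →L[ℝ] F) (c : ℝ)
    (P : F → Prop) : Prop :=
  ∃ ξ : F, ξ ≠ 0 ∧ P ξ ∧ c * ‖T‖ * ‖ξ‖ ≤ ‖T ξ‖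

/-- The function `ξ` vanishes almost everywhere off one point. -/
def AtPoint {X : Type} [MeasurableSpace X] {E : Type} [NormedAddCommGroup E] (ν : Measure X)
    (ξ : Lp E 1 ν) : Prop :=
  ∃ x : X, ∀ᵐ z ∂ν, z ≠ x → ξ z = 0

/-- Every bounded operator `T` on `L¹(X, ν; E)`, for every nonzero locally finite Borel measure `ν`,
has a nonzero vector `ξ` supported at one point with `c ‖T‖ ‖ξ‖ ≤ ‖T ξ‖`. -/
def LocalizedAtPoints (X : Type) [MetricSpace X] [MeasurableSpace X]
    (E : Type) [NormedAddCommGroup E] [NormedSpace ℝ E] (c : ℝ) : Prop :=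
  ∀ ν : Measure X, IsLocallyFiniteMeasure ν → ν ≠ 0 → ∀ T : Lp E 1 ν →L[ℝ] Lp E 1 ν,
    Attains T c (AtPoint ν)

/-- The case `p = 1`: on every space of bounded geometry every bounded operator on `L¹(X, ν; E)`
(no restriction on the propagation, any nonzero coefficient space `E`) attains its norm, up to any
constant `c < 1`, on functions supported at one point; and there is a space of bounded geometry
without property A. -/
theorem result :
    (∀ (X : Type) [MetricSpace X] [MeasurableSpace X] [BorelSpace X], BoundedGeometry X →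
      ∀ (E : Type) [NormedAddCommGroup E] [NormedSpace ℝ E] [Nontrivial E] (c : ℝ),
        0 < c → c < 1 → LocalizedAtPoints X E c) ∧
    ∃ (X : Type) (_ : MetricSpace X), BoundedGeometry X ∧ ¬ PropertyA X := by
  constructor
  · intro X _ _ _ hX E _ _ _ c hc0 hc1 ν _ hν T
    have h1 : ∀ R : ℝ, 0 < R → ∀ x : X, (Metric.ball x R).Finite := by
      intro R hR x
      obtain ⟨N, hN⟩ := hX R hR
      exact (hN x).1
    have h2 := Pool.Agent.X333.ONL.countable_of_bg h1
    have h3 := Pool.Agent.X333.ONL.discrete_of_bg h1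
    exact Pool.Agent.X333.ONL.localized_gen hν hc0 hc1 T
  · exact ⟨Pool.Agent.X333.ONL.X, inferInstance,
      fun R _ => Pool.Agent.X333.ONL.bounded_geometry R, Pool.Agent.X333.ONL.not_A⟩

end Pool.Agent.Results.MP_e081a1_an.OneLocalization
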